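import Pool.Agent.H371.SE.M13
import Pool.Agent.H371.SE.M14

/-!
The Atiyah conjecture for mapping class groups of surfaces with boundary.

Let `G` act faithfully on the free group of rank `n`. Suppose that for every prime `p ≤ n + 1` the
elements of the commutator subgroup which are fixed by `G` are nondegenerate modulo `p` (the cup
product pairing with a nontrivial character modulo `p` does not vanish on all of them), or the
closure of the image of `G` in the `n × n` matrices over the `p`-adic integers has no element of
order `p`. Then all kernel dimensions of matrices over `ℂ[G]` are integers. In particular this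
holds for all subgroups of the stabilizer of `∏ [a_i, b_i]` in the automorphism group of the free
group of rank `2 g`, which is the mapping class group of the compact orientable surface of genus
`g` with one boundary component. The main step: a continuous automorphism of order `p` of a free
pro-`p` group of finite rank fixing a set of elements which is nondegenerate modulo `p` is trivial.
-/

set_option autoImplicit false
open Classical

namespace Pool.Agent.Results.MP_95030e_al.MappingClass

/-- The von Neumann dimension of the kernel of right multiplication by `A` on `ℓ²(G)^m`, by the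
formula of the frozen statement S02349: the sum over `i` of `1 - dist(δ_(i,1), kernel)²`. -/
noncomputable def kdim {G : Type} [Group G] {m n : ℕ} (A : Matrix (Fin m) (Fin n) (G →₀ ℂ)) : ℝ :=
  ∑ i : Fin m,
    (1 - (Metric.infDist
      (lp.single 2 (i, (1 : G)) (1 : ℂ) : lp (fun _ : Fin m × G => ℂ) 2)
      {x : lp (fun _ : Fin m × G => ℂ) 2 | ∀ (j : Fin n) (g : G),
        ∑ i' : Fin m, (A i' j).sum (fun h c => x (i', g * h⁻¹) * c) = 0}) ^ 2)

/-- The element `[x_0, x_1] [x_2, x_3] ⋯` of the free group on `2 g` generators, where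
`[x, y] = x y x⁻¹ y⁻¹`. -/
def bdry (g : ℕ) : FreeGroup (Fin (2 * g)) :=
  (List.ofFn fun i : Fin g =>
    FreeGroup.of (⟨2 * i, by omega⟩ : Fin (2 * g)) *
      FreeGroup.of (⟨2 * i + 1, by omega⟩ : Fin (2 * g)) *
      (FreeGroup.of (⟨2 * i, by omega⟩ : Fin (2 * g)))⁻¹ *
      (FreeGroup.of (⟨2 * i + 1, by omega⟩ : Fin (2 * g)))⁻¹).prod

/-- The set `Z` is nondegenerate modulo `p`: for every nonzero homomorphism `χ : F → ℤ/p` there
are `z ∈ Z`, a homomorphism `ψ : F → ℤ/p` and a function `γ` with
`γ (x y) = γ x + γ y + χ x * ψ y` and `γ z ≠ 0`. (For `z` in the commutator subgroup `γ z` only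
depends on `z`, `χ` and `ψ`; it is `∑ (χ x_k ψ y_k - ψ x_k χ y_k)` for `z = ∏ [x_k, y_k]`.) -/
def Nondeg (p : ℕ) (F : Type) [Group F] (Z : Set F) : Prop :=
  ∀ χ : F → ZMod p, (∀ x y, χ (x * y) = χ x + χ y) → (∃ x, χ x ≠ 0) →
    ∃ z ∈ Z, ∃ ψ γ : F → ZMod p, (∀ x y, ψ (x * y) = ψ x + ψ y) ∧
      (∀ x y, γ (x * y) = γ x + γ y + χ x * ψ y) ∧ γ z ≠ 0

/-- The closure of the set of the matrices `M g` in the matrices over the `p`-adic integers has no
element of order `p`. -/
def NoTorsion (p : ℕ) [Fact p.Prime] {G : Type} {n : ℕ} (M : G → Matrix (Fin n) (Fin n) ℤ) :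
    Prop :=
  ∀ t ∈ closure (Set.range fun g => (M g).map (Int.cast : ℤ → ℤ_[p])), t ^ p = 1 → t = 1

/-- The exponent sums of an element of the free group. -/
def expo (n : ℕ) : FreeGroup (Fin n) →* Multiplicative (Fin n → ℤ) :=
  FreeGroup.lift fun i => Multiplicative.ofAdd (Pi.single i 1)

/-- The pairs `(G, d)` covered by the theorem. -/
inductive Den : (G : Type) → [Group G] → ℕ → Prop
  /-- subgroups of mapping class groups of surfaces with one boundary component -/
  | surface (g : ℕ) (G : Type) [Group G] (α : G →* MulAut (FreeGroup (Fin (2 * g))))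
      (hα : Function.Injective α) (hfix : ∀ x, α x (bdry g) = bdry g) : Den G 1
  /-- groups `G` of automorphisms of the free group of rank `n`; `M g` is the matrix of the action
  of `g` on `ℤ ^ n`, and `Z` a set of elements of the commutator subgroup fixed by `G` -/
  | act (n d : ℕ) (G : Type) [Group G] (α : G →* MulAut (FreeGroup (Fin n)))
      (hα : Function.Injective α) (M : G → Matrix (Fin n) (Fin n) ℤ)
      (hM : ∀ g x, Multiplicative.toAdd (expo n (α g x)) =
        (M g).mulVec (Multiplicative.toAdd (expo n x)))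
      (Z : Set (FreeGroup (Fin n))) (hZ : ∀ z ∈ Z, z ∈ commutator (FreeGroup (Fin n)))
      (hfix : ∀ g, ∀ z ∈ Z, α g z = z) (hd : 0 < d)
      (h : ∀ (p : ℕ) [Fact p.Prime], p ≤ n + 1 →
        Nondeg p (FreeGroup (Fin n)) Z ∨ NoTorsion p M ∨
          p ^ (n / (p - 1)) * (n / (p - 1)).factorial ∣ d) : Den G d
  /-- subgroups -/
  | sub (G H : Type) [Group G] [Group H] (d : ℕ) (f : H →* G) (hf : Function.Injective f)
      (hG : Den G d) : Den H d
  /-- direct products -/
  | prod (G H : Type) [Group G] [Group H] (d e : ℕ) (hG : Den G d) (hH : Den H e) :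
      Den (G × H) (d * e)
  /-- free products with free groups -/
  | free (G : Type) [Group G] (d m : ℕ) (hG : Den G d) :
      Den (Monoid.Coprod G (FreeGroup (Fin m))) d

open Pool.Agent.H371.SB Pool.Agent.H320.TF Pool.Agent.H371.SE in
theorem expo_eq (n : ℕ) (x : FreeGroup (Fin n)) : expo n x = eF n (Abelianization.of x) := by
  have h : expo n = (eF n).toMonoidHom.comp Abelianization.of := by
    refine FreeGroup.ext_hom _ _ fun i => ?_
    rw [expo, FreeGroup.lift_apply_of]
    apply Multiplicative.toAdd.injective
    change Pi.single i 1 = (Finsupp.linearEquivFunOnFinite ℤ ℤ (Fin n))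
      ((FreeAbelianGroup.equivFinsupp (Fin n)) (FreeAbelianGroup.of i))
    rw [show (FreeAbelianGroup.equivFinsupp (Fin n)) (FreeAbelianGroup.of i) = Finsupp.single i 1
      from FreeAbelianGroup.toFinsupp_of i]
    funext j
    simp [Finsupp.single_apply, Pi.single_apply, eq_comm]
  rw [h]
  rfl

theorem comm_zero {p : ℕ} {F : Type} [Group F] {z : F} (hz : z ∈ commutator F) (ψ : F → ZMod p)
    (hψ : ∀ x y, ψ (x * y) = ψ x + ψ y) : ψ z = 0 := by
  let f : F →* Multiplicative (ZMod p) :=
    { toFun := fun x => Multiplicative.ofAdd (ψ x)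
      map_one' := by
        have := hψ 1 1
        rw [mul_one] at this
        have h0 : ψ 1 = 0 := by simpa using this
        rw [h0]; rfl
      map_mul' := fun x y => by rw [hψ]; rfl }
  have h1 : f z = 1 := Abelianization.commutator_subset_ker f hz
  exact h1

open Pool.Agent.H371.SB Pool.Agent.H320.TF Pool.Agent.H371.SE in
theorem cr {G : Type} [Group G] {d : ℕ} (h : Den G d) : CR G d := by
  induction h with
  | surface g G α hα hfix =>
    refine CR.of_nd α hα {bdry g} (fun p _ => nd_surf p g (bdry g) ?_) ?_
    · have : bdry g = surf g := rfl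
      rw [this, mul_inv_cancel]
      exact one_mem _
    · intro x z hz
      rw [Set.mem_singleton_iff.1 hz]
      exact hfix x
  | act n d G α hα M hM Z hZ hfix hd h =>
    refine ⟨hd, fun p hp => ?_⟩
    have hp1 : ¬ p ∣ 1 := (Fact.out : p.Prime).one_lt.ne' ∘ Nat.dvd_one.1
    by_cases hpn : p ≤ n + 1
    · rcases h p hpn with h | h | h
      · exact ⟨1, GR.of_nd p α hα Z ⟨fun z hz ψ hψ => comm_zero (hZ z hz) ψ hψ, h⟩ hfix, 1, hp1,
          by simp⟩
      · refine ⟨1, GR.act (eF n) p (free_rtfn n) α hα M ?_ h, 1, hp1, by simp⟩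
        intro g x
        rw [← expo_eq, ← expo_eq]
        exact hM g x
      · exact ⟨cc p n, GR.aut p (eF n) (free_rtfn n) α hα, 1, hp1, by rw [one_mul]; exact h⟩
    · refine ⟨cc p n, GR.aut p (eF n) (free_rtfn n) α hα, 1, hp1, ?_⟩
      have : n / (p - 1) = 0 := Nat.div_eq_of_lt (by omega)
      rw [cc, this]
      simp
  | sub G H d f hf hG ih => exact CR.sub f hf ih
  | prod G H d e hG hH ih ih' => exact CR.prod ih ih'
  | free G d m hG ih => exact CR.free m ih

/-- For every pair `(G, d)` of the class above and every matrix `A` over `ℂ[G]`, the number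
`d * dim ker A` is an integer; for `d = 1` this is the conclusion of the Atiyah conjecture for
torsion-free groups, with complex coefficients. -/
theorem result : ∀ (G : Type) [Group G] (d : ℕ), Den G d →
    ∀ (m n : ℕ) (A : Matrix (Fin m) (Fin n) (G →₀ ℂ)), ∃ z : ℤ, (d : ℝ) * kdim A = z := by
  intro G _ d hG m n A
  exact (cr hG).kd_int m n A

end Pool.Agent.Results.MP_95030e_al.MappingClass
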