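import Pool.Agent.H320.TF.Fin

/-!
The Atiyah conjecture for torsion-free groups whose `p`-adic closures have no elements of order `p`.

Let `G` act faithfully on a residually torsion-free nilpotent group with abelianization `ℤ ^ n`
(for example `ℤ ^ n` itself, or a free group), or embed in the outer automorphism group of the
free group of rank `n`, and let `M(g)` be the matrix of the action of `g` on `ℤ ^ n`. If for all
primes `p ≤ n + 1` the closure of `M(G)` in the matrices over the `p`-adic integers has no element
of order `p`, then all kernel dimensions of matrices over `ℂ[G]` are integers. If this is only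
supposed for some of the primes, there is an explicit common denominator composed of the others.
The condition is verified for the group of units of reduced norm one in any order `R` of odd rank
`N` such that `ℤ_p ⊗ R` has no zero divisors for the primes `p ≤ N + 1`: these are cocompact
arithmetic groups. (For `p > n + 1` there are no elements of order `p` in `GL_n (ℤ_p)`.)
-/

set_option autoImplicit false
open Classical
open scoped TensorProduct

namespace Pool.Agent.Results.MP_95030e_al.PadicClosures

/-- The von Neumann dimension of the kernel of right multiplication by `A` on `ℓ²(G)^m`, by the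
formula of the frozen statement S02349: the sum over `i` of `1 - dist(δ_(i,1), kernel)²`. -/
noncomputable def kdim {G : Type} [Group G] {m n : ℕ} (A : Matrix (Fin m) (Fin n) (G →₀ ℂ)) : ℝ :=
  ∑ i : Fin m,
    (1 - (Metric.infDist
      (lp.single 2 (i, (1 : G)) (1 : ℂ) : lp (fun _ : Fin m × G => ℂ) 2)
      {x : lp (fun _ : Fin m × G => ℂ) 2 | ∀ (j : Fin n) (g : G),
        ∑ i' : Fin m, (A i' j).sum (fun h c => x (i', g * h⁻¹) * c) = 0}) ^ 2)

/-- Residually torsion-free nilpotent groups. -/
def RTFN (N : Type) [Group N] : Prop :=
  ∀ x : N, x ≠ 1 → ∃ (L : Subgroup N) (_ : L.Normal), x ∉ L ∧ Group.IsNilpotent (N ⧸ L) ∧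
    ∀ (y : N ⧸ L) (m : ℕ), m ≠ 0 → y ^ m = 1 → y = 1

/-- The closure of the set of the matrices `M g` in the matrices over the `p`-adic integers has no
element of order `p`. -/
def NoTorsion (p : ℕ) [Fact p.Prime] {G : Type} {n : ℕ} (M : G → Matrix (Fin n) (Fin n) ℤ) :
    Prop :=
  ∀ t ∈ closure (Set.range fun g => (M g).map (Int.cast : ℤ → ℤ_[p])), t ^ p = 1 → t = 1

/-- For every prime `p ≤ n + 1` the closure of `M G` has no element of order `p`, or `d` is
divisible by `p ^ k * k!` with `k = ⌊n / (p - 1)⌋`. For `d = 1` the second case is impossible. -/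
def Denom {G : Type} (n d : ℕ) (M : G → Matrix (Fin n) (Fin n) ℤ) : Prop :=
  0 < d ∧ ∀ (p : ℕ) [Fact p.Prime], p ≤ n + 1 →
    NoTorsion p M ∨ p ^ (n / (p - 1)) * (n / (p - 1)).factorial ∣ d

/-- The inner automorphisms of the free group of rank `n`. -/
def Inn (n : ℕ) : Subgroup (MulAut (FreeGroup (Fin n))) :=
  (MulAut.conj : FreeGroup (Fin n) →* MulAut (FreeGroup (Fin n))).range

instance (n : ℕ) : (Inn n).Normal :=
  inferInstanceAs (Pool.Agent.H371.SB.innS (FreeGroup (Fin n))).Normal

/-- The outer automorphism group of the free group of rank `n`. -/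
abbrev Out (n : ℕ) : Type := MulAut (FreeGroup (Fin n)) ⧸ Inn n

/-- The exponent sums of an element of the free group. -/
def expo (n : ℕ) : FreeGroup (Fin n) →* Multiplicative (Fin n → ℤ) :=
  FreeGroup.lift fun i => Multiplicative.ofAdd (Pi.single i 1)

/-- The pairs `(G, d)` covered by the theorem. -/
inductive Den : (G : Type) → [Group G] → ℕ → Prop
  /-- `G` acts faithfully on a residually torsion-free nilpotent group `N` with abelianization
  `ℤ ^ n`, and `M g` is the matrix of the action of `g` on `ℤ ^ n` -/
  | act (N : Type) [Group N] (n d : ℕ) (e : Abelianization N ≃* Multiplicative (Fin n → ℤ))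
      (hN : RTFN N) (G : Type) [Group G] (α : G →* MulAut N) (hα : Function.Injective α)
      (M : G → Matrix (Fin n) (Fin n) ℤ)
      (hM : ∀ g x, Multiplicative.toAdd (e (Abelianization.of (α g x))) =
        (M g).mulVec (Multiplicative.toAdd (e (Abelianization.of x))))
      (hd : Denom n d M) : Den G d
  /-- `G` embeds in the outer automorphism group of the free group of rank `n`, and `M g` is the
  matrix of the action of `g` on `ℤ ^ n` -/
  | out (n d : ℕ) (G : Type) [Group G] (α : G →* Out n) (hα : Function.Injective α)
      (M : G → Matrix (Fin n) (Fin n) ℤ)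
      (hM : ∀ g (h : MulAut (FreeGroup (Fin n))), α g = QuotientGroup.mk h → ∀ x,
        Multiplicative.toAdd (expo n (h x)) =
          (M g).mulVec (Multiplicative.toAdd (expo n x)))
      (hd : Denom n d M) : Den G d
  /-- `R` is an order of odd rank `N` without zero divisors over `ℤ_p`, `p ≤ N + 1`, and `G`
  embeds in the group of the units of `R` of norm one -/
  | order (R : Type) [Ring R] (N : ℕ) (e : R ≃+ (Fin N → ℤ)) (hN : Odd N)
      (hR : ∀ (p : ℕ) [Fact p.Prime], p ≤ N + 1 → NoZeroDivisors (ℤ_[p] ⊗[ℤ] R))
      (G : Type) [Group G] (φ : G →* Rˣ) (hφ : Function.Injective φ)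
      (hdet : ∀ g, LinearMap.det (LinearMap.mulLeft ℤ ((φ g : Rˣ) : R)) = 1) : Den G 1
  /-- subgroups -/
  | sub (G H : Type) [Group G] [Group H] (d : ℕ) (f : H →* G) (hf : Function.Injective f)
      (hG : Den G d) : Den H d
  /-- direct products -/
  | prod (G H : Type) [Group G] [Group H] (d e : ℕ) (hG : Den G d) (hH : Den H e) :
      Den (G × H) (d * e)
  /-- free products with free groups -/
  | free (G : Type) [Group G] (d m : ℕ) (hG : Den G d) :
      Den (Monoid.Coprod G (FreeGroup (Fin m))) d

open Pool.Agent.H371.SB Pool.Agent.H320.TF in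
theorem expo_eq (n : ℕ) (x : FreeGroup (Fin n)) : expo n x = eF n (Abelianization.of x) := by
  have h : expo n = (eF n).toMonoidHom.comp Abelianization.of := by
    refine FreeGroup.ext_hom _ _ fun i => ?_
    rw [expo, FreeGroup.lift_apply_of]
    apply Multiplicative.toAdd.injective
    change Pi.single i 1 = (Finsupp.linearEquivFunOnFinite ℤ ℤ (Fin n))
      ((FreeAbelianGroup.equivFinsupp (Fin n)) (FreeAbelianGroup.of i))
    rw [show (FreeAbelianGroup.equivFinsupp (Fin n)) (FreeAbelianGroup.of i) = Finsupp.single i 1
      from FreeAbelianGroup.toFinsupp_of i]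
    funext j
    simp [Finsupp.single_apply, Pi.single_apply, eq_comm]
  rw [h]
  rfl

open Pool.Agent.H371.SB Pool.Agent.H320.TF in
theorem cr {G : Type} [Group G] {d : ℕ} (h : Den G d) : CR G d := by
  induction h with
  | act N n d e hN G α hα M hM hd =>
    exact CR.of_denom M hd (fun p _ h => GR.act e p hN α hα M hM h)
      (fun p _ => Pool.Agent.H371.SB.GR.aut p e hN α hα)
  | out n d G α hα M hM hd =>
    refine CR.of_denom M hd (fun p _ h => GR.outer p n α hα M ?_ h)
      (fun p _ => Pool.Agent.H371.SB.GR.out p n α hα)
    intro g h hh x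
    rw [← expo_eq, ← expo_eq]
    exact hM g h hh x
  | order R N e hN hR G φ hφ hdet => exact CR.order e hN hR φ hφ hdet
  | sub G H d f hf hG ih => exact CR.sub f hf ih
  | prod G H d e hG hH ih ih' => exact CR.prod ih ih'
  | free G d m hG ih => exact CR.free m ih

/-- For every pair `(G, d)` of the class above and every matrix `A` over `ℂ[G]`, the number
`d * dim ker A` is an integer; for `d = 1` this is the conclusion of the Atiyah conjecture for
torsion-free groups, with complex coefficients. -/
theorem result : ∀ (G : Type) [Group G] (d : ℕ), Den G d →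
    ∀ (m n : ℕ) (A : Matrix (Fin m) (Fin n) (G →₀ ℂ)), ∃ z : ℤ, (d : ℝ) * kdim A = z := by
  intro G _ d hG m n A
  exact (cr hG).kd_int m n A

end Pool.Agent.Results.MP_95030e_al.PadicClosures
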