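import Pool.Agent.H371.PM.Q19

/-!
The Atiyah conjecture for mapping class groups with many fixed punctures.

Let `F` be the free group on `x_0, …, x_(2g-1)` and `z_0, …, z_(r-1)`, the fundamental group of
the surface of genus `g` with `r + 1` punctures, the last peripheral element being
`∂ = ∏ [x_(2i), x_(2i+1)] ∏ z_j`. The automorphisms of `F` mapping `∂` to a conjugate and each
`z_j` to a conjugate of some `z_j'` form the group of mapping classes of the surface of genus `g`
with `r + 2` punctures fixing two of the punctures (the base point and `∂`). If a group `G` of such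
mapping classes fixes at least `2 g + 3` punctures, then all kernel dimensions of matrices over
`ℂ[G]` are integers. In particular this holds for the pure mapping class groups of surfaces with
`n ≥ 2 g + 3` punctures; these are all torsion-free pure mapping class groups (for `n ≤ 2 g + 2`
there is the hyperelliptic involution). The same is proved for the automorphisms fixing `∂` and
mapping each `z_j` to a conjugate of some `z_j'` (the mapping class group of the surface of genus
`g` with one boundary component and `r` punctures, which may be permuted), without condition on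
`g` and `r`. In general, if `k + 2` punctures are fixed, then the denominators only contain primes
`p` with `k (p - 1) ≤ 2 g`.

The main step: a continuous automorphism of order `p` of the pro-`p` completion of `F` mapping all
`z_j` and `∂` to conjugates acts trivially on the abelianization if `r (p - 1) > 2 g`.
-/

set_option autoImplicit false
open Classical

namespace Pool.Agent.Results.MP_95030e_al.PureMappingClass

/-- The von Neumann dimension of the kernel of right multiplication by `A` on `ℓ²(G)^m`, by the
formula of the frozen statement S02349: the sum over `i` of `1 - dist(δ_(i,1), kernel)²`. -/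
noncomputable def kdim {G : Type} [Group G] {m n : ℕ} (A : Matrix (Fin m) (Fin n) (G →₀ ℂ)) : ℝ :=
  ∑ i : Fin m,
    (1 - (Metric.infDist
      (lp.single 2 (i, (1 : G)) (1 : ℂ) : lp (fun _ : Fin m × G => ℂ) 2)
      {x : lp (fun _ : Fin m × G => ℂ) 2 | ∀ (j : Fin n) (g : G),
        ∑ i' : Fin m, (A i' j).sum (fun h c => x (i', g * h⁻¹) * c) = 0}) ^ 2)

/-- The generator `z_j = x_(2g+j)` of the free group on `x_0, …, x_(2g+r-1)`. -/
def pu (g r : ℕ) (j : Fin r) : FreeGroup (Fin (2 * g + r)) :=
  FreeGroup.of (⟨2 * g + j, by omega⟩ : Fin (2 * g + r))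

/-- The element `[x_0, x_1] [x_2, x_3] ⋯ [x_(2g-2), x_(2g-1)] z_0 z_1 ⋯ z_(r-1)` of the free group
on `x_0, …, x_(2g+r-1)`, where `[x, y] = x y x⁻¹ y⁻¹` and `z_j = x_(2g+j)`. -/
def bd (g r : ℕ) : FreeGroup (Fin (2 * g + r)) :=
  (List.ofFn fun i : Fin g =>
    FreeGroup.of (⟨2 * i, by omega⟩ : Fin (2 * g + r)) *
      FreeGroup.of (⟨2 * i + 1, by omega⟩ : Fin (2 * g + r)) *
      (FreeGroup.of (⟨2 * i, by omega⟩ : Fin (2 * g + r)))⁻¹ *
      (FreeGroup.of (⟨2 * i + 1, by omega⟩ : Fin (2 * g + r)))⁻¹).prod *
  (List.ofFn (pu g r)).prod

/-- The pairs `(G, d)` covered by the theorem. -/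
inductive Den : (G : Type) → [Group G] → ℕ → Prop
  /-- groups of automorphisms mapping `∂` to a conjugate, each `z_j` to a conjugate of some `z_j'`,
  with `j' = j` for `j` in the set `A`. For `2 g < |A|` every `d > 0` is allowed, in particular
  `d = 1`; for `A` the set of all `j` this includes the pure mapping class group of the surface of
  genus `g` with `r + 2` punctures. -/
  | punct (g r d : ℕ) (A : Finset (Fin r)) (G : Type) [Group G]
      (α : G →* MulAut (FreeGroup (Fin (2 * g + r)))) (hα : Function.Injective α)
      (hz : ∀ x j, ∃ j', (j ∈ A → j' = j) ∧ IsConj (pu g r j') (α x (pu g r j)))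
      (hb : ∀ x, IsConj (bd g r) (α x (bd g r))) (hd : 0 < d)
      (h : ∀ p : ℕ, p.Prime → A.card * (p - 1) ≤ 2 * g →
        p ^ ((2 * g + r) / (p - 1)) * ((2 * g + r) / (p - 1)).factorial ∣ d) : Den G d
  /-- groups of automorphisms fixing `∂` and mapping each `z_j` to a conjugate of some `z_j'`;
  this includes the mapping class group of the surface of genus `g` with one boundary component
  and `r` punctures -/
  | bdry (g r : ℕ) (G : Type) [Group G] (α : G →* MulAut (FreeGroup (Fin (2 * g + r))))
      (hα : Function.Injective α) (hz : ∀ x j, ∃ j', IsConj (pu g r j') (α x (pu g r j)))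
      (hb : ∀ x, α x (bd g r) = bd g r) : Den G 1
  /-- subgroups -/
  | sub (G H : Type) [Group G] [Group H] (d : ℕ) (f : H →* G) (hf : Function.Injective f)
      (hG : Den G d) : Den H d
  /-- direct products -/
  | prod (G H : Type) [Group G] [Group H] (d e : ℕ) (hG : Den G d) (hH : Den H e) :
      Den (G × H) (d * e)
  /-- free products with free groups -/
  | free (G : Type) [Group G] (d m : ℕ) (hG : Den G d) :
      Den (Monoid.Coprod G (FreeGroup (Fin m))) d

open Pool.Agent.H371.SB Pool.Agent.H371.SE Pool.Agent.H371.PM in
theorem cr {G : Type} [Group G] {d : ℕ} (h : Den G d) : CR G d := by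
  induction h with
  | punct g r d A G α hα hz hb hd h =>
    have e2 : bd g r = dd g r := rfl
    refine ⟨hd, fun p hp => ?_⟩
    have hp1 : ¬ p ∣ 1 := (Fact.out : p.Prime).one_lt.ne' ∘ Nat.dvd_one.1
    by_cases hpn : A.card * (p - 1) ≤ 2 * g
    · exact ⟨cc p (2 * g + r), GR.aut p (eF (2 * g + r)) (free_rtfn (2 * g + r)) α hα, 1, hp1, by
        rw [one_mul]; exact h p hp.out hpn⟩
    · refine ⟨1, GR.mixed p (g := g) (r := r) A (by omega) α hα ?_ ?_, 1, hp1, by simp⟩
      · intro x j
        obtain ⟨j', hj, hj'⟩ := hz x j
        exact ⟨j', hj, hj'⟩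
      · intro x
        rw [← e2]
        exact hb x
  | bdry g r G α hα hz hb =>
    have e2 : bd g r = dd g r := rfl
    refine ⟨one_pos, fun p hp => ⟨1, GR.bdry p (g := g) (r := r) α hα ?_ ?_, 1,
      fun h => hp.out.one_lt.ne' (Nat.dvd_one.1 h), by simp⟩⟩
    · intro x j
      obtain ⟨j', hj'⟩ := hz x j
      exact ⟨j', hj'⟩
    · intro x
      rw [← e2]
      exact hb x
  | sub G H d f hf hG ih => exact CR.sub f hf ih
  | prod G H d e hG hH ih ih' => exact CR.prod ih ih'
  | free G d m hG ih => exact CR.free m ih

/-- For every pair `(G, d)` of the class above and every matrix `A` over `ℂ[G]`, the number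
`d * dim ker A` is an integer; for `d = 1` this is the conclusion of the Atiyah conjecture for
torsion-free groups, with complex coefficients. -/
theorem result : ∀ (G : Type) [Group G] (d : ℕ), Den G d →
    ∀ (m n : ℕ) (A : Matrix (Fin m) (Fin n) (G →₀ ℂ)), ∃ z : ℤ, (d : ℝ) * kdim A = z := by
  intro G _ d hG m n A
  exact (cr hG).kd_int m n A

end Pool.Agent.Results.MP_95030e_al.PureMappingClass
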